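import Pool.Agent.Y547.GS.Sepe2

/-!
The local separability element.
-/

set_option autoImplicit false

namespace Pool.Agent.Y547.GS

open MvPolynomial TensorProduct
open Pool.Agent.Y234.GS

section

variable {K L ι : Type} [Field K] [Field L] [Algebra K L] [Fintype ι] {x : ι → L}
  {Q : IntermediateField K L}

/-- the multiplication -/
noncomputable def mu (Q : IntermediateField K L) : L ⊗[Q] L →+* L :=
  (Algebra.TensorProduct.lmul' Q (S := L)).toRingHom

lemma mu_tmul (a b : L) : mu Q (a ⊗ₜ[Q] b) = a * b :=
  Algebra.TensorProduct.lmul'_apply_tmul a b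

lemma mu_e1 (a : L) : mu Q (e1 K Q a) = a := by
  rw [e1_apply, mu_tmul, mul_one]

lemma mu_e2 (a : L) : mu Q (e2 K Q a) = a := by
  rw [e2_apply, mu_tmul, one_mul]

lemma mu_dl (i : ι) : mu Q (dl x Q i) = 0 := by
  rw [dl, map_sub, mu_e1, mu_e2, sub_self]

lemma mu_J1 {d : ℕ} {j : L ⊗[Q] L} (hj : j ∈ J1 K x Q d) : mu Q j = 0 := by
  unfold J1 at hj
  induction hj using AddSubgroup.closure_induction with
  | mem s hs =>
    obtain ⟨c, _, h, _, l, rfl⟩ := hs
    rw [map_mul, mu_dl, mul_zero]
  | zero => exact map_zero _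
  | add t t' _ _ h1 h2 => rw [map_add, h1, h2, add_zero]
  | neg t _ h1 => rw [map_neg, h1, neg_zero]

lemma Eg_prod {T : Type} (s : Finset T) (f : T → L ⊗[Q] L) (d : ℕ)
    (h : ∀ i ∈ s, f i ∈ Eg K x Q d) : ∏ i ∈ s, f i ∈ Eg K x Q (s.card * d) := by
  classical
  induction s using Finset.induction_on with
  | empty => rw [Finset.prod_empty, Finset.card_empty, zero_mul]; exact Eg_one
  | insert a s ha ih =>
    rw [Finset.prod_insert ha, Finset.card_insert_of_notMem ha]
    have h1 := Eg_mul (h a (Finset.mem_insert_self a s))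
      (ih fun i hi => h i (Finset.mem_insert_of_mem hi))
    convert h1 using 2
    ring

lemma Eg_det {T : Type} [Fintype T] [DecidableEq T] (N : Matrix T T (L ⊗[Q] L)) (d : ℕ)
    (h : ∀ i j, N i j ∈ Eg K x Q d) : N.det ∈ Eg K x Q (Fintype.card T * d) := by
  rw [Matrix.det_apply]
  refine AddSubgroup.sum_mem _ fun σ _ => ?_
  have h1 : ∏ i, N (σ i) i ∈ Eg K x Q (Fintype.card T * d) :=
    Eg_prod Finset.univ (fun i => N (σ i) i) d fun i _ => h _ _
  rcases Int.units_eq_one_or (Equiv.Perm.sign σ) with hs | hs
  · rw [hs, one_smul]; exact h1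
  · rw [hs, Units.neg_smul, one_smul]
    exact AddSubgroup.neg_mem _ h1

/-- the elements on which both embeddings agree after multiplication -/
lemma agree_poly (ε : L ⊗[Q] L) (hε : ∀ l, dl x Q l * ε = 0) (F : MvPolynomial ι K) :
    e1 K Q (aeval x F) * ε = e2 K Q (aeval x F) * ε := by
  induction F using MvPolynomial.induction_on with
  | C c =>
    rw [aeval_C, e_eq Q _ (Q.algebraMap_mem c)]
  | add F G hF hG =>
    simp only [map_add, add_mul, hF, hG]
  | mul_X F i hF =>
    have h1 : e1 K Q (x i) * ε = e2 K Q (x i) * ε := by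
      have := hε i
      rw [dl, sub_mul, sub_eq_zero] at this
      exact this
    rw [map_mul, aeval_X, map_mul, map_mul]
    calc e1 K Q (aeval x F) * e1 K Q (x i) * ε = e1 K Q (aeval x F) * (e1 K Q (x i) * ε) := by ring
      _ = e2 K Q (x i) * (e1 K Q (aeval x F) * ε) := by rw [h1]; ring
      _ = e2 K Q (aeval x F) * e2 K Q (x i) * ε := by rw [hF]; ring

lemma agree (hM : Model K x) (ε : L ⊗[Q] L) (hε : ∀ l, dl x Q l * ε = 0) (z : L) :
    e1 K Q z * ε = e2 K Q z * ε := by
  obtain ⟨G, H, hH, hz⟩ := hM.gen z
  have h1 := agree_poly (x := x) ε hε G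
  have h2 := agree_poly (x := x) ε hε H
  rw [← hz, map_mul, map_mul] at h1
  have h3 : e2 K Q (aeval x H) * e2 K Q ((aeval x H)⁻¹) = 1 := by
    rw [← map_mul, mul_inv_cancel₀ hH, map_one]
  calc e1 K Q z * ε = e1 K Q z * (e2 K Q (aeval x H) * ε) * e2 K Q ((aeval x H)⁻¹) := by
        linear_combination (-(e1 K Q z * ε)) * h3
    _ = (e1 K Q z * e1 K Q (aeval x H) * ε) * e2 K Q ((aeval x H)⁻¹) := by rw [← h2]; ring
    _ = e2 K Q z * ε := by
        rw [h1]
        linear_combination (e2 K Q z * ε) * h3

end

/-- SEPE: the local separability element. -/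
theorem sepe : S_SEPE := by
  classical
  intro K L ι _ _ _ _ _ x D y v Q hM hy hv hT
  -- the rows
  let S : Set (ι → K) := {s | ∃ (d : ℕ) (P : ι → MvPolynomial ι K),
    (∀ l, (P l).IsHomogeneous d) ∧ (∀ l, eval y (P l) = s l) ∧
    ∑ l, e1 K Q (aeval x (P l)) * dl x Q l ∈ J2 K x Q (d + 1)}
  have hS : ∀ u : ι → K, (∀ s ∈ S, ∑ l, s l * u l = 0) → u = 0 := by
    intro u hu
    refine hT u ?_ ?_
    · intro G hG
      have hsum : G = ∑ d ∈ Finset.range (G.totalDegree + 1), homogeneousComponent d G :=
        (sum_homogeneousComponent G).symm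
      have hd : ∀ d, ∑ l, eval y (pderiv l (homogeneousComponent d G)) * u l = 0 := by
        intro d
        refine hu _ ⟨d - 1, fun l => pderiv l (homogeneousComponent d G), fun l => ?_,
          fun l => rfl, ?_⟩
        · exact (homogeneousComponent_isHomogeneous d G).pderiv
        · rcases Nat.eq_zero_or_pos d with h0 | h0
          · subst h0
            have h1 : ∀ l, pderiv l (homogeneousComponent 0 G) = 0 := by
              intro l
              rw [homogeneousComponent_zero, pderiv_C]
            simp only [h1, map_zero, zero_mul, Finset.sum_const_zero]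
            exact AddSubgroup.zero_mem _
          · have h1 := (TT_homog (x := x) (Q := Q) (homogeneousComponent_isHomogeneous d G)).c
            rw [hM.hom G hG d, map_zero, map_zero, sub_zero, zero_sub] at h1
            have h2 := AddSubgroup.neg_mem _ h1
            rw [neg_neg] at h2
            have h3 : d - 1 + 1 = d := by omega
            rw [h3]
            exact h2
      have hcoe : ∀ F : MvPolynomial ι K, aeval y F = eval y F := fun F => by
        rw [aeval_eq_eval]
      calc ∑ l, aeval y (pderiv l G) * u l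
          = ∑ l, (∑ d ∈ Finset.range (G.totalDegree + 1),
              eval y (pderiv l (homogeneousComponent d G))) * u l := by
            refine Finset.sum_congr rfl fun l _ => ?_
            rw [hcoe]
            conv_lhs => rw [hsum]
            rw [map_sum, map_sum]
        _ = ∑ d ∈ Finset.range (G.totalDegree + 1),
              ∑ l, eval y (pderiv l (homogeneousComponent d G)) * u l := by
            simp only [Finset.sum_mul]
            rw [Finset.sum_comm]
        _ = 0 := Finset.sum_eq_zero fun d _ => hd d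
    · intro l
      refine hu _ ⟨0, fun i => C (v l i), fun i => isHomogeneous_C _ _, fun i => eval_C _, ?_⟩
      have h1 : ∑ i, e1 K Q (aeval x (C (v l i) : MvPolynomial ι K)) * dl x Q i = 0 := by
        have h2 : ∀ i, e1 K Q (aeval x (C (v l i) : MvPolynomial ι K)) * dl x Q i =
            e1 K Q (v l i • x i) - e2 K Q (v l i • x i) := by
          intro i
          have h3 := e_eq Q _ (Q.algebraMap_mem (v l i))
          rw [aeval_C, dl, mul_sub, Algebra.smul_def, map_mul, map_mul, ← h3]
        rw [Finset.sum_congr rfl fun i _ => h2 i, Finset.sum_sub_distrib, ← map_sum, ← map_sum,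
          e_eq Q _ (hv l), sub_self]
      rw [h1]
      exact AddSubgroup.zero_mem _
  obtain ⟨r, hr, hdet⟩ := exists_rows S hS
  choose d P hP1 hP2 hP3 using hr
  let M : Matrix ι ι (MvPolynomial ι K) := Matrix.of P
  have hMh : ∀ i l, (M i l).IsHomogeneous (d i) := fun i l => hP1 i l
  set R1 : ℕ := ∑ i, d i with hR1
  have hG1 : M.det.IsHomogeneous R1 := det_homog M d hMh
  have hG1y : eval y M.det ≠ 0 := by
    have h1 : eval y M.det = (Matrix.of r).det := by
      rw [RingHom.map_det]
      congr 1
      ext i l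
      exact hP2 i l
    rw [h1]; exact hdet
  set g1 : L := aeval x M.det with hg1
  -- the matrix of the multiplication
  have hq : ∀ k, ∃ j : ι → L ⊗[Q] L, (∀ m, j m ∈ J1 K x Q R1) ∧
      e1 K Q g1 * dl x Q k = ∑ m, j m * dl x Q m := by
    intro k
    refine J2_split ?_
    have h1 : e1 K Q g1 * dl x Q k = ∑ i, (∑ l, e1 K Q (aeval x (P i l)) * dl x Q l) *
        e1 K Q (aeval x (M.adjugate k i)) := by
      have h2 : ∀ l, ∑ i, M.adjugate k i * M i l = if k = l then M.det else 0 := by
        intro l
        have h3 := congrFun (congrFun (Matrix.adjugate_mul M) k) l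
        rw [Matrix.mul_apply, Matrix.smul_apply, Matrix.one_apply] at h3
        rw [h3]
        split_ifs <;> simp
      calc e1 K Q g1 * dl x Q k
          = ∑ l, e1 K Q (aeval x (if k = l then M.det else 0)) * dl x Q l := by
            rw [Finset.sum_eq_single k]
            · rw [if_pos rfl]
            · intro l _ hl
              rw [if_neg (Ne.symm hl), map_zero, map_zero, zero_mul]
            · intro h; exact absurd (Finset.mem_univ k) h
        _ = ∑ l, ∑ i, e1 K Q (aeval x (M.adjugate k i)) * e1 K Q (aeval x (P i l)) *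
              dl x Q l := by
            refine Finset.sum_congr rfl fun l _ => ?_
            rw [← h2 l, map_sum, map_sum, Finset.sum_mul]
            refine Finset.sum_congr rfl fun i _ => ?_
            rw [map_mul, map_mul]; rfl
        _ = _ := by
            rw [Finset.sum_comm]
            refine Finset.sum_congr rfl fun i _ => ?_
            rw [Finset.sum_mul]
            exact Finset.sum_congr rfl fun l _ => by ring
    rw [h1]
    refine AddSubgroup.sum_mem _ fun i _ => ?_
    obtain ⟨c, hc, hc'⟩ := adj_homog M d hMh k i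
    have h2 := J2_mul (hP3 i) (TT_homog (x := x) (Q := Q) hc').a
    have h3 : d i + 1 + c = R1 + 1 := by omega
    rwa [h3] at h2
  choose j hj1 hj2 using hq
  let N : Matrix ι ι (L ⊗[Q] L) :=
    Matrix.of fun k m => (if k = m then e1 K Q g1 else 0) - j k m
  have hNE : ∀ k m, N k m ∈ Eg K x Q R1 := by
    intro k m
    refine AddSubgroup.sub_mem _ ?_ (J1_le (hj1 k m))
    split_ifs
    · exact (TT_homog (x := x) (Q := Q) hG1).a
    · exact AddSubgroup.zero_mem _
  have hNd : ∀ k, ∑ m, N k m * dl x Q m = 0 := by
    intro k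
    have h1 : ∑ m, N k m * dl x Q m =
        ∑ m, ((if k = m then e1 K Q g1 else 0) * dl x Q m - j k m * dl x Q m) :=
      Finset.sum_congr rfl fun m _ => by rw [← sub_mul]; rfl
    rw [h1, Finset.sum_sub_distrib, ← hj2 k]
    simp
  set ε : L ⊗[Q] L := N.det with hε
  have hεd : ∀ k, dl x Q k * ε = 0 := by
    intro k
    have h1 : ∀ l, ∑ i, N.adjugate k i * N i l = if k = l then N.det else 0 := by
      intro l
      have h3 := congrFun (congrFun (Matrix.adjugate_mul N) k) l
      rw [Matrix.mul_apply, Matrix.smul_apply, Matrix.one_apply] at h3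
      rw [h3]
      split_ifs <;> simp
    calc dl x Q k * ε = ∑ l, (if k = l then N.det else 0) * dl x Q l := by
          rw [Finset.sum_eq_single k]
          · rw [if_pos rfl, mul_comm]
          · intro l _ hl
            rw [if_neg (Ne.symm hl), zero_mul]
          · intro h; exact absurd (Finset.mem_univ k) h
      _ = ∑ l, ∑ i, N.adjugate k i * N i l * dl x Q l := by
          refine Finset.sum_congr rfl fun l _ => ?_
          rw [← h1 l, Finset.sum_mul]
      _ = ∑ i, N.adjugate k i * ∑ l, N i l * dl x Q l := by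
          rw [Finset.sum_comm]
          refine Finset.sum_congr rfl fun i _ => ?_
          rw [Finset.mul_sum]
          exact Finset.sum_congr rfl fun l _ => by ring
      _ = 0 := by
          refine Finset.sum_eq_zero fun i _ => ?_
          rw [hNd i, mul_zero]
  have hmu : mu Q ε = g1 ^ Fintype.card ι := by
    rw [hε, RingHom.map_det]
    have h1 : (mu Q).mapMatrix N = Matrix.diagonal fun _ => g1 := by
      ext k m
      rw [RingHom.mapMatrix_apply, Matrix.map_apply, Matrix.diagonal_apply]
      show mu Q ((if k = m then e1 K Q g1 else 0) - j k m) = _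
      rw [map_sub, mu_J1 (hj1 k m), sub_zero]
      split_ifs
      · exact mu_e1 g1
      · exact map_zero _
    rw [h1, Matrix.det_diagonal, Finset.prod_const, Finset.card_univ]
  obtain ⟨T, _, rr, rr', a, b, hab, hsum⟩ := Eg_rep (Eg_det N R1 hNE)
  let f : Fin (Fintype.card T) ≃ T := (Fintype.equivFin T).symm
  refine ⟨Fintype.card T, Fintype.card ι * R1, fun i => rr (f i), fun i => rr' (f i),
    fun i => a (f i), fun i => b (f i), g1 ^ Fintype.card ι, fun i => hab (f i), ?_, ?_, ?_⟩
  · refine ⟨M.det ^ Fintype.card ι, ?_, by rw [map_pow], ?_⟩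
    · have := hG1.pow (Fintype.card ι)
      rwa [mul_comm] at this
    · rw [map_pow]
      exact pow_ne_zero _ hG1y
  · rw [← hmu, hε, hsum, map_sum, Equiv.sum_comp f (fun i => a i * b i)]
    exact Finset.sum_congr rfl fun i _ => (mu_tmul _ _).symm
  · intro z
    rw [Equiv.sum_comp f (fun i => (z * a i) ⊗ₜ[Q] (b i)),
      Equiv.sum_comp f (fun i => (a i) ⊗ₜ[Q] (z * b i))]
    have h1 : ∑ i, (z * a i) ⊗ₜ[Q] (b i) = e1 K Q z * ε := by
      rw [hε, hsum, Finset.mul_sum]
      refine Finset.sum_congr rfl fun i _ => ?_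
      rw [e1_apply, Algebra.TensorProduct.tmul_mul_tmul, one_mul]
    have h2 : ∑ i, (a i) ⊗ₜ[Q] (z * b i) = e2 K Q z * ε := by
      rw [hε, hsum, Finset.mul_sum]
      refine Finset.sum_congr rfl fun i _ => ?_
      rw [e2_apply, Algebra.TensorProduct.tmul_mul_tmul, one_mul]
    rw [h1, h2]
    exact agree hM ε hεd z

end Pool.Agent.Y547.GS
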