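import Mathlib

/-!
Linear algebra for the local separability element: rows with nonzero determinant from a spanning
set, homogeneous determinants.
-/

set_option autoImplicit false

namespace Pool.Agent.Y547.GS

open MvPolynomial

section rows

variable {K ι : Type} [Field K] [Fintype ι] [DecidableEq ι]

theorem exists_rows (S : Set (ι → K))
    (hS : ∀ u : ι → K, (∀ s ∈ S, ∑ l, s l * u l = 0) → u = 0) :
    ∃ r : ι → (ι → K), (∀ i, r i ∈ S) ∧ (Matrix.of r).det ≠ 0 := by
  have hspan : ⊤ ≤ Submodule.span K S := by
    by_contra h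
    have hlt : Submodule.span K S < ⊤ := lt_top_iff_ne_top.mpr fun h' => h (h' ▸ le_rfl)
    obtain ⟨f, hf, hle⟩ := Submodule.exists_le_ker_of_lt_top _ hlt
    apply hf
    have hfs : ∀ s : ι → K, f s = ∑ l, s l * f (Pi.single l 1) := by
      intro s
      have h1 : s = ∑ l, s l • (Pi.single l (1 : K) : ι → K) := by
        funext k
        simp [Finset.sum_apply, Pi.single_apply]
      conv_lhs => rw [h1]
      rw [map_sum]
      exact Finset.sum_congr rfl fun l _ => by rw [map_smul, smul_eq_mul]
    have h0 := hS (fun l => f (Pi.single l 1)) (fun s hs => by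
      rw [← hfs s]
      exact hle (Submodule.subset_span hs))
    refine LinearMap.ext fun s => ?_
    rw [hfs s]
    simp [congrFun h0]
  let b := Module.Basis.ofSpan hspan
  let e := (Pi.basisFun K ι).indexEquiv b
  refine ⟨fun i => b (e i), fun i => ?_, ?_⟩
  · exact Module.Basis.ofSpan_subset hspan ⟨e i, rfl⟩
  · have hli : LinearIndependent K (fun i => b (e i)) := b.linearIndependent.comp e e.injective
    have h1 : LinearIndependent K (Matrix.of fun i => b (e i)).row := hli
    rw [Matrix.linearIndependent_rows_iff_isUnit, Matrix.isUnit_iff_isUnit_det] at h1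
    exact h1.ne_zero

end rows

section hdet

variable {K ι : Type} [CommRing K] [Fintype ι] [DecidableEq ι]

theorem det_homog (M : Matrix ι ι (MvPolynomial ι K)) (d : ι → ℕ)
    (h : ∀ i l, (M i l).IsHomogeneous (d i)) : M.det.IsHomogeneous (∑ i, d i) := by
  rw [Matrix.det_apply]
  refine IsHomogeneous.sum _ _ _ fun σ _ => ?_
  have h1 : (∏ i, M (σ i) i).IsHomogeneous (∑ i, d i) := by
    have h2 := IsHomogeneous.prod Finset.univ (fun i => M (σ i) i) (fun i => d (σ i))
      (fun i _ => h _ _)
    rwa [Equiv.sum_comp σ d] at h2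
  rcases Int.units_eq_one_or (Equiv.Perm.sign σ) with hs | hs
  · rw [hs, one_smul]; exact h1
  · rw [hs, Units.neg_smul, one_smul]
    exact h1.neg

theorem adj_homog (M : Matrix ι ι (MvPolynomial ι K)) (d : ι → ℕ)
    (h : ∀ i l, (M i l).IsHomogeneous (d i)) (k i : ι) :
    ∃ c, c + d i = ∑ i, d i ∧ (M.adjugate k i).IsHomogeneous c := by
  refine ⟨∑ j, Function.update d i 0 j, ?_, ?_⟩
  · rw [Finset.sum_update_of_mem (Finset.mem_univ i), zero_add, add_comm,
      ← Finset.add_sum_erase _ _ (Finset.mem_univ i)]
    congr 1
    refine Finset.sum_congr ?_ fun _ _ => rfl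
    ext j; simp
  · rw [Matrix.adjugate_apply]
    refine det_homog _ _ fun j l => ?_
    by_cases hj : j = i
    · subst hj
      rw [Matrix.updateRow_self, Function.update_self]
      by_cases hl : l = k
      · subst hl
        rw [Pi.single_eq_same]
        exact isHomogeneous_one ι K
      · rw [Pi.single_eq_of_ne hl]
        exact isHomogeneous_zero ι K 0
    · rw [Matrix.updateRow_ne hj, Function.update_of_ne hj]
      exact h j l

end hdet

end Pool.Agent.Y547.GS
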