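import Pool.Agent.Y234.GS.StmB
import Pool.Agent.Y547.GS.Sepe1

/-!
The graded tensor square and the Taylor formula for homogeneous polynomials.
-/

set_option autoImplicit false

namespace Pool.Agent.Y547.GS

open MvPolynomial TensorProduct
open Pool.Agent.Y234.GS

section

variable (K : Type) {L ι : Type} [Field K] [Field L] [Algebra K L] [Fintype ι] (x : ι → L)
  (Q : IntermediateField K L)

/-- first embedding -/
noncomputable def e1 : L →+* L ⊗[Q] L := Algebra.TensorProduct.includeLeftRingHom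

/-- second embedding -/
noncomputable def e2 : L →+* L ⊗[Q] L :=
  (Algebra.TensorProduct.includeRight : L →ₐ[Q] L ⊗[Q] L).toRingHom

variable {K}

lemma e1_apply (a : L) : e1 K Q a = a ⊗ₜ[Q] 1 := rfl

lemma e2_apply (a : L) : e2 K Q a = 1 ⊗ₜ[Q] a := rfl

lemma e12 (a b : L) : a ⊗ₜ[Q] b = e1 K Q a * e2 K Q b := by
  rw [e1_apply, e2_apply, Algebra.TensorProduct.tmul_mul_tmul, mul_one, one_mul]

lemma e_eq (a : L) (ha : a ∈ Q) : e1 K Q a = e2 K Q a := by
  rw [e1_apply, e2_apply]
  have h1 : a = (⟨a, ha⟩ : Q) • (1 : L) := by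
    rw [Algebra.smul_def, mul_one]; rfl
  rw [h1, TensorProduct.smul_tmul]

/-- the differences of the coordinates -/
noncomputable def dl (i : ι) : L ⊗[Q] L := e1 K Q (x i) - e2 K Q (x i)

variable (K)

/-- homogeneous elements of degree `d` -/
def Eg (d : ℕ) : AddSubgroup (L ⊗[Q] L) :=
  AddSubgroup.closure {t | ∃ r r' : ℕ, r + r' = d ∧ ∃ a ∈ (VV K x) ^ r, ∃ b ∈ (VV K x) ^ r',
    t = e1 K Q a * e2 K Q b}

/-- homogeneous elements of the square of the ideal of the diagonal -/
def J2 (d : ℕ) : AddSubgroup (L ⊗[Q] L) :=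
  AddSubgroup.closure {t | ∃ c : ℕ, c + 2 = d ∧ ∃ h ∈ Eg K x Q c, ∃ l m : ι,
    t = h * dl x Q l * dl x Q m}

/-- homogeneous elements of the ideal of the diagonal -/
def J1 (d : ℕ) : AddSubgroup (L ⊗[Q] L) :=
  AddSubgroup.closure {t | ∃ c : ℕ, c + 1 = d ∧ ∃ h ∈ Eg K x Q c, ∃ l : ι, t = h * dl x Q l}

variable {K x Q}

lemma Eg_mul {d d' : ℕ} {s t : L ⊗[Q] L} (hs : s ∈ Eg K x Q d) (ht : t ∈ Eg K x Q d') :
    s * t ∈ Eg K x Q (d + d') := by
  unfold Eg at hs
  induction hs using AddSubgroup.closure_induction with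
  | mem s hs =>
    obtain ⟨r, r', hr, a, ha, b, hb, rfl⟩ := hs
    unfold Eg at ht
    induction ht using AddSubgroup.closure_induction with
    | mem t ht =>
      obtain ⟨q, q', hq, a', ha', b', hb', rfl⟩ := ht
      refine AddSubgroup.subset_closure ⟨r + q, r' + q', by omega, a * a', ?_, b * b', ?_, ?_⟩
      · rw [pow_add]; exact Submodule.mul_mem_mul ha ha'
      · rw [pow_add]; exact Submodule.mul_mem_mul hb hb'
      · rw [map_mul, map_mul]; ring
    | zero => rw [mul_zero]; exact AddSubgroup.zero_mem _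
    | add t t' _ _ h1 h2 => rw [mul_add]; exact AddSubgroup.add_mem _ h1 h2
    | neg t _ h1 =>
      have h2 : ∀ u w : L ⊗[Q] L, u * -w = -(u * w) := fun u w => mul_neg u w
      rw [h2]; exact AddSubgroup.neg_mem _ h1
  | zero => rw [zero_mul]; exact AddSubgroup.zero_mem _
  | add t t' _ _ h1 h2 => rw [add_mul]; exact AddSubgroup.add_mem _ h1 h2
  | neg t _ h1 =>
    have h2 : ∀ u w : L ⊗[Q] L, -u * w = -(u * w) := fun u w => neg_mul u w
    rw [h2]; exact AddSubgroup.neg_mem _ h1

lemma one_mem_pow_zero : (1 : L) ∈ (VV K x) ^ 0 := by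
  rw [pow_zero]; exact Submodule.one_le.mp le_rfl

lemma e1_mem {r : ℕ} {a : L} (ha : a ∈ (VV K x) ^ r) : e1 K Q a ∈ Eg K x Q r :=
  AddSubgroup.subset_closure ⟨r, 0, rfl, a, ha, 1, one_mem_pow_zero, by rw [map_one, mul_one]⟩

lemma e2_mem {r : ℕ} {a : L} (ha : a ∈ (VV K x) ^ r) : e2 K Q a ∈ Eg K x Q r :=
  AddSubgroup.subset_closure ⟨0, r, zero_add r, 1, one_mem_pow_zero, a, ha, by
    rw [map_one, one_mul]⟩

lemma Eg_one : (1 : L ⊗[Q] L) ∈ Eg K x Q 0 := by
  have := e1_mem (Q := Q) (K := K) (x := x) (r := 0) (a := 1) one_mem_pow_zero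
  rwa [map_one] at this

lemma x_mem (i : ι) : x i ∈ (VV K x) ^ 1 := by
  rw [pow_one]; exact Submodule.subset_span ⟨i, rfl⟩

lemma dl_mem (i : ι) : dl x Q i ∈ Eg K x Q 1 :=
  AddSubgroup.sub_mem _ (e1_mem (x_mem i)) (e2_mem (x_mem i))

lemma J2_mul {d e : ℕ} {s t : L ⊗[Q] L} (hs : s ∈ J2 K x Q d) (ht : t ∈ Eg K x Q e) :
    s * t ∈ J2 K x Q (d + e) := by
  unfold J2 at hs
  induction hs using AddSubgroup.closure_induction with
  | mem s hs =>
    obtain ⟨c, hc, h, hh, l, m, rfl⟩ := hs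
    refine AddSubgroup.subset_closure ⟨c + e, by omega, h * t, Eg_mul hh ht, l, m, by ring⟩
  | zero => rw [zero_mul]; exact AddSubgroup.zero_mem _
  | add t t' _ _ h1 h2 => rw [add_mul]; exact AddSubgroup.add_mem _ h1 h2
  | neg t _ h1 =>
    have h2 : ∀ u w : L ⊗[Q] L, -u * w = -(u * w) := fun u w => neg_mul u w
    rw [h2]; exact AddSubgroup.neg_mem _ h1

lemma J1_le {d : ℕ} : J1 K x Q d ≤ Eg K x Q d := by
  unfold J1
  rw [AddSubgroup.closure_le]
  rintro t ⟨c, rfl, h, hh, l, rfl⟩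
  exact Eg_mul hh (dl_mem l)

lemma J2_split {d : ℕ} {q : L ⊗[Q] L} (hq : q ∈ J2 K x Q (d + 1)) :
    ∃ j : ι → L ⊗[Q] L, (∀ m, j m ∈ J1 K x Q d) ∧ q = ∑ m, j m * dl x Q m := by
  classical
  unfold J2 at hq
  induction hq using AddSubgroup.closure_induction with
  | mem s hs =>
    obtain ⟨c, hc, h, hh, l, m, rfl⟩ := hs
    refine ⟨Pi.single m (h * dl x Q l), fun k => ?_, ?_⟩
    · by_cases hk : k = m
      · subst hk
        rw [Pi.single_eq_same]
        exact AddSubgroup.subset_closure ⟨c, by omega, h, hh, l, rfl⟩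
      · rw [Pi.single_eq_of_ne hk]
        exact AddSubgroup.zero_mem _
    · rw [Finset.sum_eq_single m]
      · rw [Pi.single_eq_same]
      · intro k _ hk
        rw [Pi.single_eq_of_ne hk, zero_mul]
      · intro h; exact absurd (Finset.mem_univ m) h
  | zero => exact ⟨0, fun m => AddSubgroup.zero_mem _, by simp⟩
  | add t t' _ _ h1 h2 =>
    obtain ⟨j, hj, rfl⟩ := h1
    obtain ⟨j', hj', rfl⟩ := h2
    refine ⟨j + j', fun m => AddSubgroup.add_mem _ (hj m) (hj' m), ?_⟩
    rw [← Finset.sum_add_distrib]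
    exact Finset.sum_congr rfl fun m _ => by rw [Pi.add_apply, add_mul]
  | neg t _ h1 =>
    obtain ⟨j, hj, rfl⟩ := h1
    refine ⟨-j, fun m => AddSubgroup.neg_mem _ (hj m), ?_⟩
    have h2 : ∀ u w : L ⊗[Q] L, -(u * w) = -u * w := fun u w => (neg_mul u w).symm
    rw [← Finset.sum_neg_distrib]
    exact Finset.sum_congr rfl fun m _ => by rw [Pi.neg_apply]; exact h2 _ _

variable (x Q)

/-- the Taylor formula for a homogeneous polynomial -/
structure TT (e : ℕ) (G : MvPolynomial ι K) : Prop where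
  a : e1 K Q (aeval x G) ∈ Eg K x Q e
  b : ∀ l m : ι, e1 K Q (aeval x (pderiv l G)) * dl x Q l * dl x Q m ∈ J2 K x Q (e + 1)
  c : e1 K Q (aeval x G) - e2 K Q (aeval x G) -
    ∑ l, e1 K Q (aeval x (pderiv l G)) * dl x Q l ∈ J2 K x Q e

variable {x Q}

lemma TT_C (c : K) : TT x Q 0 (C c : MvPolynomial ι K) := by
  have hc : algebraMap K L c ∈ Q := Q.algebraMap_mem c
  refine ⟨?_, ?_, ?_⟩
  · refine e1_mem ?_
    rw [aeval_C, pow_zero]
    exact Submodule.algebraMap_mem c
  · intro l m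
    rw [pderiv_C, map_zero, map_zero, zero_mul, zero_mul]
    exact AddSubgroup.zero_mem _
  · have h1 : e1 K Q (aeval x (C c : MvPolynomial ι K)) -
        e2 K Q (aeval x (C c : MvPolynomial ι K)) -
        ∑ l, e1 K Q (aeval x (pderiv l (C c : MvPolynomial ι K))) * dl x Q l = 0 := by
      rw [aeval_C, e_eq Q _ hc]
      simp
    rw [h1]
    exact AddSubgroup.zero_mem _

lemma TT_add {e : ℕ} {F G : MvPolynomial ι K} (hF : TT x Q e F) (hG : TT x Q e G) :
    TT x Q e (F + G) := by
  refine ⟨?_, ?_, ?_⟩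
  · rw [map_add, map_add]; exact AddSubgroup.add_mem _ hF.a hG.a
  · intro l m
    rw [map_add, map_add, map_add, add_mul, add_mul]
    exact AddSubgroup.add_mem _ (hF.b l m) (hG.b l m)
  · have h := AddSubgroup.add_mem _ hF.c hG.c
    convert h using 1
    simp only [map_add, add_mul, Finset.sum_add_distrib]
    ring

lemma TT_zero (e : ℕ) : TT x Q e (0 : MvPolynomial ι K) := by
  refine ⟨?_, ?_, ?_⟩
  · rw [map_zero, map_zero]; exact AddSubgroup.zero_mem _
  · intro l m
    rw [map_zero, map_zero, map_zero, zero_mul, zero_mul]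
    exact AddSubgroup.zero_mem _
  · simp only [map_zero, zero_mul, Finset.sum_const_zero, sub_zero]
    exact AddSubgroup.zero_mem _

lemma TT_mulX {e : ℕ} {F : MvPolynomial ι K} (hF : TT x Q e F) (i : ι) :
    TT x Q (e + 1) (F * X i) := by
  classical
  have hd : ∀ l, e1 K Q (aeval x (pderiv l (F * X i))) =
      e1 K Q (aeval x (pderiv l F)) * e1 K Q (x i) +
        (if l = i then e1 K Q (aeval x F) else 0) := by
    intro l
    rw [Derivation.leibniz, pderiv_X]
    simp only [smul_eq_mul, map_add, map_mul, aeval_X]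
    by_cases h : l = i
    · subst h
      simp; ring
    · rw [Pi.single_eq_of_ne (Ne.symm h), if_neg h]
      simp; ring
  refine ⟨?_, ?_, ?_⟩
  · rw [map_mul, aeval_X, map_mul]
    exact Eg_mul hF.a (e1_mem (x_mem i))
  · intro l m
    rw [hd l]
    have h1 := J2_mul (hF.b l m) (e1_mem (Q := Q) (x_mem (K := K) (x := x) i))
    by_cases h : l = i
    · subst h
      rw [if_pos rfl]
      have h2 : e1 K Q (aeval x F) * dl x Q l * dl x Q m ∈ J2 K x Q (e + 1 + 1) :=
        AddSubgroup.subset_closure ⟨e, rfl, _, hF.a, l, m, rfl⟩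
      have h3 := AddSubgroup.add_mem _ h1 h2
      convert h3 using 1
      ring
    · rw [if_neg h, add_zero]
      convert h1 using 1
      ring
  · set S := ∑ l, e1 K Q (aeval x (pderiv l F)) * dl x Q l with hS
    have hsum : ∑ l, e1 K Q (aeval x (pderiv l (F * X i))) * dl x Q l =
        S * e1 K Q (x i) + e1 K Q (aeval x F) * dl x Q i := by
      simp only [hd, add_mul, Finset.sum_add_distrib, ite_mul, zero_mul, Finset.sum_ite_eq',
        Finset.mem_univ, if_true]
      rw [hS, Finset.sum_mul]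
      congr 1
      exact Finset.sum_congr rfl fun l _ => by ring
    have hFc := hF.c
    rw [← hS] at hFc
    have h1 := J2_mul hFc (e2_mem (Q := Q) (x_mem (K := K) (x := x) i))
    have h2 : S * dl x Q i ∈ J2 K x Q (e + 1) := by
      rw [hS, Finset.sum_mul]
      exact AddSubgroup.sum_mem _ fun l _ => hF.b l i
    have h3 := AddSubgroup.sub_mem _ h1 h2
    convert h3 using 1
    rw [hsum, map_mul, aeval_X, map_mul, map_mul]
    unfold dl
    ring

lemma TT_mono (e : ℕ) : ∀ (s : ι →₀ ℕ) (c : K), s.degree = e →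
    TT x Q e (monomial s c : MvPolynomial ι K) := by
  classical
  induction e with
  | zero =>
    intro s c hs
    have h0 : s = 0 := (Finsupp.degree_eq_zero_iff s).mp hs
    subst h0
    exact TT_C c
  | succ e ih =>
    intro s c hs
    have hne : s ≠ 0 := by
      rintro rfl
      simp at hs
    obtain ⟨i, hi⟩ := Finsupp.ne_iff.mp hne
    rw [Finsupp.zero_apply] at hi
    have h1 : s = (s - Finsupp.single i 1) + Finsupp.single i 1 := by
      ext k
      by_cases hk : k = i
      · subst hk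
        simp only [Finsupp.add_apply, Finsupp.tsub_apply, Finsupp.single_eq_same]
        omega
      · simp [Finsupp.single_apply, Ne.symm hk]
    have h2 : (s - Finsupp.single i 1).degree = e := by
      have h3 := congrArg Finsupp.degree h1
      rw [map_add, hs, Finsupp.degree_single] at h3
      omega
    have h4 : (monomial s c : MvPolynomial ι K) = monomial (s - Finsupp.single i 1) c * X i := by
      conv_lhs => rw [h1]
      rw [X, monomial_mul, mul_one]
    rw [h4]
    exact TT_mulX (ih _ c h2) i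

theorem TT_homog {e : ℕ} {G : MvPolynomial ι K} (hG : G.IsHomogeneous e) : TT x Q e G := by
  classical
  rw [← support_sum_monomial_coeff G]
  refine Finset.sum_induction _ (fun F => TT x Q e F) (fun _ _ h1 h2 => TT_add h1 h2)
    (TT_zero e) ?_
  intro s hs
  refine TT_mono e s _ ?_
  have := hG (mem_support_iff.mp hs)
  rw [Finsupp.degree_eq_weight_one]
  exact this

/-- finite sums for homogeneous elements -/
lemma Eg_rep {d : ℕ} {t : L ⊗[Q] L} (ht : t ∈ Eg K x Q d) :
    ∃ (T : Type) (_ : Fintype T) (r r' : T → ℕ) (a b : T → L),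
      (∀ i, r i + r' i = d ∧ a i ∈ (VV K x) ^ r i ∧ b i ∈ (VV K x) ^ r' i) ∧
      t = ∑ i, a i ⊗ₜ[Q] b i := by
  unfold Eg at ht
  induction ht using AddSubgroup.closure_induction with
  | mem t ht =>
    obtain ⟨r, r', hr, a, ha, b, hb, rfl⟩ := ht
    exact ⟨Unit, inferInstance, fun _ => r, fun _ => r', fun _ => a, fun _ => b,
      fun _ => ⟨hr, ha, hb⟩, by simp [e12]⟩
  | zero =>
    exact ⟨Empty, inferInstance, fun _ => 0, fun _ => 0, fun _ => 0, fun _ => 0,
      fun i => i.elim, by simp⟩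
  | add t t' _ _ h1 h2 =>
    obtain ⟨T, _, r, r', a, b, h, rfl⟩ := h1
    obtain ⟨T', _, q, q', a', b', h', rfl⟩ := h2
    refine ⟨T ⊕ T', inferInstance, Sum.elim r q, Sum.elim r' q', Sum.elim a a', Sum.elim b b',
      ?_, ?_⟩
    · rintro (i | i)
      · exact h i
      · exact h' i
    · simp
  | neg t _ h1 =>
    obtain ⟨T, _, r, r', a, b, h, rfl⟩ := h1
    refine ⟨T, inferInstance, r, r', fun i => -a i, b, fun i => ⟨(h i).1, ?_, (h i).2.2⟩, ?_⟩
    · exact Submodule.neg_mem _ (h i).2.1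
    · simp [TensorProduct.neg_tmul]

end

end Pool.Agent.Y547.GS
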